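import Mathlib

/-!
# A 3-edge-critical graph with independent domination number 4

The complement of the circulant graph on `ZMod 65` with connection set
`±{2, 3, 5, 23, 25, 26, 28}` has domination number `3`, independent domination number `4`, and
adding any missing edge lowers the domination number.
-/

namespace Pool.Agent.Results.MP_e46b0b_co.Counterexample

open SimpleGraph

variable {V : Type} [Fintype V]

/-- `D` is a dominating set of `G`: every vertex is in `D` or adjacent to a vertex of `D`. -/
def IsDominating (G : SimpleGraph V) (D : Finset V) : Prop :=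
  ∀ v : V, v ∈ D ∨ ∃ u ∈ D, G.Adj u v

/-- The domination number of a finite graph: the least size of a dominating set. -/
noncomputable def domNumber (G : SimpleGraph V) : ℕ :=
  sInf {k : ℕ | ∃ D : Finset V, D.card = k ∧ IsDominating G D}

/-- The independent domination number of a finite graph: the least size of a dominating set no two
vertices of which are adjacent. -/
noncomputable def indepDomNumber (G : SimpleGraph V) : ℕ :=
  sInf {k : ℕ | ∃ D : Finset V, D.card = k ∧ IsDominating G D ∧
    ∀ u ∈ D, ∀ v ∈ D, ¬ G.Adj u v}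

/-- `G` is `k`-(γ,r)-critical: its domination number is `k`, and adding an edge between any two
nonadjacent vertices at distance at most `r` makes the domination number smaller than `k`.
`SimpleGraph.edist` is the distance with values in `ℕ∞`, infinite between different components. -/
def IsLocallyEdgeCritical (G : SimpleGraph V) (k r : ℕ) : Prop :=
  domNumber G = k ∧
    ∀ u v : V, u ≠ v → ¬ G.Adj u v → G.edist u v ≤ (r : ℕ∞) → domNumber (G ⊔ edge u v) < k

/-- `G` is `k`-edge-critical: its domination number is `k`, and adding an edge between any two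
nonadjacent vertices makes the domination number smaller than `k`. -/
def IsEdgeCritical (G : SimpleGraph V) (k : ℕ) : Prop :=
  domNumber G = k ∧ ∀ u v : V, u ≠ v → ¬ G.Adj u v → domNumber (G ⊔ edge u v) < k

/-- The connection set of the complement of our graph. -/
def S : Finset (ZMod 65) := {2, 3, 5, 23, 25, 26, 28, 37, 39, 40, 42, 60, 62, 63}

lemma S_neg : ∀ s ∈ S, -s ∈ S := by decide

lemma S_zero : (0 : ZMod 65) ∉ S := by decide

/-- The graph: distinct `u`, `v` in `ZMod 65` are adjacent when `u - v ∉ S`. -/
def theGraph : SimpleGraph (ZMod 65) where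
  Adj u v := u ≠ v ∧ u - v ∉ S
  symm := ⟨by
    intro u v h
    refine ⟨h.1.symm, fun hs => h.2 ?_⟩
    have := S_neg _ hs
    simpa using this⟩
  loopless := ⟨fun u h => h.1 rfl⟩

set_option maxRecDepth 100000 in
lemma diff_S : ∀ d : ZMod 65, ∃ s ∈ S, ∃ t ∈ S, s - t = d := by decide

set_option maxRecDepth 100000 in
lemma tri_S : ∀ s ∈ S, ∀ t ∈ S, s - t ∈ S → ∃ u ∈ S, s - u ∈ S ∧ t - u ∈ S := by decide

set_option maxRecDepth 100000 in
lemma double_S : ∀ s ∈ S, ∀ z ∈ S, z - (s + s) ∈ S → z = s := by decide

lemma adj_iff (u v : ZMod 65) : theGraph.Adj u v ↔ u ≠ v ∧ u - v ∉ S := Iff.rfl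

/-- Any two vertices have a common non-neighbour different from both. -/
lemma pair_not_dominating (u w : ZMod 65) :
    ∃ z, (z ≠ u ∧ ¬ theGraph.Adj u z) ∧ (z ≠ w ∧ ¬ theGraph.Adj w z) := by
  obtain ⟨s, hs, t, ht, hst⟩ := diff_S (u - w)
  refine ⟨u - s, ⟨?_, ?_⟩, ?_, ?_⟩
  · intro h
    have : s = 0 := by simpa using h
    exact S_zero (this ▸ hs)
  · rw [adj_iff]
    intro h
    apply h.2
    simpa using hs
  · intro h
    have : t = 0 := by
      have h1 : t = s - (u - w) := by rw [← hst]; ring
      have h2 : s = u - w := by rw [← h]; ring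
      rw [h1, h2]; ring
    exact S_zero (this ▸ ht)
  · rw [adj_iff]
    intro h
    apply h.2
    have h1 : w - (u - s) = t := by
      have : t = s - (u - w) := by rw [← hst]; ring
      rw [this]; ring
    rw [h1]; exact ht

lemma three_le_card {D : Finset (ZMod 65)} (hD : IsDominating theGraph D) : 3 ≤ D.card := by
  by_contra hlt
  push Not at hlt
  -- `D` is contained in a set `{u, w}`
  have : ∃ u w, D ⊆ {u, w} := by
    have h2 : D.card ≤ 2 := by omega
    rcases Nat.lt_or_ge D.card 1 with h0 | h1
    · have : D = ∅ := Finset.card_eq_zero.mp (by omega)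
      exact ⟨0, 0, by simp [this]⟩
    · rcases Nat.lt_or_ge D.card 2 with h1' | h2'
      · obtain ⟨a, ha⟩ := Finset.card_eq_one.mp (by omega : D.card = 1)
        exact ⟨a, a, by simp [ha]⟩
      · obtain ⟨a, b, _, hab⟩ := Finset.card_eq_two.mp (by omega : D.card = 2)
        exact ⟨a, b, by simp [hab]⟩
  obtain ⟨u, w, hsub⟩ := this
  obtain ⟨z, ⟨hzu, hnu⟩, hzw, hnw⟩ := pair_not_dominating u w
  rcases hD z with hz | ⟨x, hx, hxz⟩
  · have := hsub hz
    simp only [Finset.mem_insert, Finset.mem_singleton] at this
    rcases this with h | h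
    · exact hzu h
    · exact hzw h
  · have := hsub hx
    simp only [Finset.mem_insert, Finset.mem_singleton] at this
    rcases this with h | h
    · exact hnu (h ▸ hxz)
    · exact hnw (h ▸ hxz)

lemma nonadj_S {a b : ZMod 65} (hab : a ≠ b) (h : ¬ theGraph.Adj a b) : a - b ∈ S := by
  rw [adj_iff] at h
  by_contra hc
  exact h ⟨hab, hc⟩

lemma four_le_card {D : Finset (ZMod 65)} (hD : IsDominating theGraph D)
    (hi : ∀ u ∈ D, ∀ v ∈ D, ¬ theGraph.Adj u v) : 4 ≤ D.card := by
  have h3 := three_le_card hD
  by_contra hlt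
  push Not at hlt
  obtain ⟨a, b, c, hab, hac, hbc, hDe⟩ := Finset.card_eq_three.mp (by omega : D.card = 3)
  have ha : a ∈ D := by simp [hDe]
  have hb : b ∈ D := by simp [hDe]
  have hc : c ∈ D := by simp [hDe]
  have h1 := nonadj_S hab (hi a ha b hb)
  have h2 := nonadj_S hac (hi a ha c hc)
  have h3 := nonadj_S hbc (hi b hb c hc)
  -- translate by `c`
  obtain ⟨u, hu, hu1, hu2⟩ := tri_S (a - c) h2 (b - c) h3 (by simpa using h1)
  rcases hD (c + u) with hz | ⟨x, hx, hxz⟩
  · rw [hDe] at hz
    simp only [Finset.mem_insert, Finset.mem_singleton] at hz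
    rcases hz with h | h | h
    · have : a - c - u = 0 := by rw [← h]; ring
      rw [this] at hu1; exact S_zero hu1
    · have : b - c - u = 0 := by rw [← h]; ring
      rw [this] at hu2; exact S_zero hu2
    · have : u = 0 := by simpa using h
      rw [this] at hu; exact S_zero hu
  · rw [hDe] at hx
    simp only [Finset.mem_insert, Finset.mem_singleton] at hx
    rw [adj_iff] at hxz
    apply hxz.2
    rcases hx with h | h | h
    · rw [h]; have : a - (c + u) = a - c - u := by ring
      rw [this]; exact hu1
    · rw [h]; have : b - (c + u) = b - c - u := by ring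
      rw [this]; exact hu2
    · rw [h]; have : c - (c + u) = -u := by ring
      rw [this]; exact S_neg _ hu

lemma dom3 : IsDominating theGraph {0, 1, 2} := by
  unfold IsDominating
  simp only [adj_iff]
  decide

lemma dom4 : IsDominating theGraph {0, 2, 5, 28} := by
  unfold IsDominating
  simp only [adj_iff]
  decide

lemma indep4 : ∀ u ∈ ({0, 2, 5, 28} : Finset (ZMod 65)), ∀ v ∈ ({0, 2, 5, 28} : Finset (ZMod 65)),
    ¬ theGraph.Adj u v := by
  simp only [adj_iff]
  decide

lemma domNumber_theGraph : domNumber theGraph = 3 := by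
  apply le_antisymm
  · exact Nat.sInf_le ⟨{0, 1, 2}, by decide, dom3⟩
  · apply le_csInf
    · exact ⟨3, {0, 1, 2}, by decide, dom3⟩
    · rintro k ⟨D, rfl, hD⟩
      exact three_le_card hD

lemma indepDomNumber_theGraph : indepDomNumber theGraph = 4 := by
  apply le_antisymm
  · exact Nat.sInf_le ⟨{0, 2, 5, 28}, by decide, dom4, indep4⟩
  · apply le_csInf
    · exact ⟨4, {0, 2, 5, 28}, by decide, dom4, indep4⟩
    · rintro k ⟨D, rfl, hD, hi⟩
      exact four_le_card hD hi

lemma critical (u v : ZMod 65) (huv : u ≠ v) (h : ¬ theGraph.Adj u v) :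
    domNumber (theGraph ⊔ edge u v) < 3 := by
  have hs : v - u ∈ S := by
    have := S_neg _ (nonadj_S huv h)
    simpa using this
  -- `w = u + 2 (v - u)`; the pair `{u, w}` dominates everything but `v`
  have hdom : IsDominating (theGraph ⊔ edge u v) {u, u + ((v - u) + (v - u))} := by
    intro z
    by_cases hzu : z = u
    · left; simp [hzu]
    by_cases hzw : z = u + ((v - u) + (v - u))
    · left; simp [hzw]
    right
    by_cases hzv : z = v
    · refine ⟨u, by simp, ?_⟩
      rw [hzv, SimpleGraph.sup_adj, SimpleGraph.edge_adj]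
      right
      exact ⟨Or.inl ⟨rfl, rfl⟩, huv⟩
    by_cases h1 : theGraph.Adj u z
    · exact ⟨u, by simp, by rw [SimpleGraph.sup_adj]; exact Or.inl h1⟩
    · refine ⟨u + ((v - u) + (v - u)), by simp, ?_⟩
      rw [SimpleGraph.sup_adj]
      left
      by_contra h2
      apply hzv
      have e1 : z - u ∈ S := by
        have := S_neg _ (nonadj_S (Ne.symm hzu) h1)
        simpa using this
      have e2 : z - (u + ((v - u) + (v - u))) ∈ S := by
        have := S_neg _ (nonadj_S (Ne.symm hzw) h2)
        simpa using this
      have e3 := double_S (v - u) hs (z - u) e1 (by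
        have : z - u - (v - u + (v - u)) = z - (u + ((v - u) + (v - u))) := by ring
        rw [this]; exact e2)
      have : z = (z - u) + u := by ring
      rw [this, e3]; ring
  refine lt_of_le_of_lt (Nat.sInf_le ⟨_, rfl, hdom⟩) ?_
  exact lt_of_le_of_lt (Finset.card_le_two) (by norm_num)

/-- There is a graph that is 3-edge-critical, hence 3-(γ,2)-critical, whose independent domination
number is `4`. -/
theorem result :
    ∃ G : SimpleGraph (ZMod 65),
      IsLocallyEdgeCritical G 3 2 ∧ IsEdgeCritical G 3 ∧ indepDomNumber G = 4 :=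
  ⟨theGraph, ⟨domNumber_theGraph, fun u v huv h _ => critical u v huv h⟩,
    ⟨domNumber_theGraph, critical⟩, indepDomNumber_theGraph⟩

end Pool.Agent.Results.MP_e46b0b_co.Counterexample
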